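import Mathlib

/-!
# Second-order arithmetic: structures, arithmetic formulas and schemes

All notions are the usual ones (Simpson, Subsystems of second order arithmetic). Structures may have a
nonstandard first-order part.
-/

set_option autoImplicit false

namespace Pool.Agent.E8helper17.SOA

/-- Number terms of the language `L₂` of second-order arithmetic; `var i` is the `i`-th number
variable. -/
inductive Tm : Type
  | var : ℕ → Tm
  | zero : Tm
  | one : Tm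
  | add : Tm → Tm → Tm
  | mul : Tm → Tm → Tm

/-- Number variables that occur in a term. -/
def Tm.Occurs (i : ℕ) : Tm → Prop
  | .var j => i = j
  | .zero => False
  | .one => False
  | .add s t => s.Occurs i ∨ t.Occurs i
  | .mul s t => s.Occurs i ∨ t.Occurs i

/-- Arithmetic formulas of `L₂`: no set quantifiers, but free set variables are allowed. `mem t i` says
that `t` is an element of the `i`-th set variable, `all i φ` quantifies the `i`-th number variable. -/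
inductive Fm : Type
  | eq : Tm → Tm → Fm
  | lt : Tm → Tm → Fm
  | mem : Tm → ℕ → Fm
  | neg : Fm → Fm
  | and : Fm → Fm → Fm
  | all : ℕ → Fm → Fm

/-- Implication. -/
def Fm.imp (φ ψ : Fm) : Fm := .neg (.and φ (.neg ψ))

/-- Existential number quantifier. -/
def Fm.ex (i : ℕ) (φ : Fm) : Fm := .neg (.all i (.neg φ))

/-- Bounded (`Δ⁰₀`) formulas: all quantifiers are bounded, `∀ i < t`, `i` not in `t`. -/
inductive Fm.IsBounded : Fm → Prop
  | eq (s t : Tm) : IsBounded (.eq s t)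
  | lt (s t : Tm) : IsBounded (.lt s t)
  | mem (t : Tm) (i : ℕ) : IsBounded (.mem t i)
  | neg {φ : Fm} : IsBounded φ → IsBounded (.neg φ)
  | and {φ ψ : Fm} : IsBounded φ → IsBounded ψ → IsBounded (.and φ ψ)
  | ball {φ : Fm} (i : ℕ) (t : Tm) : ¬ t.Occurs i → IsBounded φ →
      IsBounded (.all i (.imp (.lt (.var i) t) φ))

/-- `Σ⁰₁` formulas `∃ i θ`, `θ` bounded. -/
def Fm.IsSigma (φ : Fm) : Prop := ∃ i θ, Fm.IsBounded θ ∧ φ = .ex i θ

/-- `Π⁰₁` formulas `∀ i θ`, `θ` bounded. -/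
def Fm.IsPi (φ : Fm) : Prop := ∃ i θ, Fm.IsBounded θ ∧ φ = .all i θ

/-- A structure for the first-order part of the language. -/
structure NumStructure where
  Num : Type
  zero : Num
  one : Num
  add : Num → Num → Num
  mul : Num → Num → Num
  lt : Num → Num → Prop

namespace NumStructure

variable (𝔐 : NumStructure)

/-- Value of a term under an assignment of the number variables. -/
def eval : Tm → (ℕ → 𝔐.Num) → 𝔐.Num
  | .var i, v => v i
  | .zero, _ => 𝔐.zero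
  | .one, _ => 𝔐.one
  | .add s t, v => 𝔐.add (eval s v) (eval t v)
  | .mul s t, v => 𝔐.mul (eval s v) (eval t v)

/-- Truth of an arithmetic formula under assignments `v` of the number variables and `V` of the set
variables. -/
def Holds : Fm → (ℕ → 𝔐.Num) → (ℕ → Set 𝔐.Num) → Prop
  | .eq s t, v, _ => 𝔐.eval s v = 𝔐.eval t v
  | .lt s t, v, _ => 𝔐.lt (𝔐.eval s v) (𝔐.eval t v)
  | .mem t i, v, V => 𝔐.eval t v ∈ V i
  | .neg φ, v, V => ¬ Holds φ v V
  | .and φ ψ, v, V => Holds φ v V ∧ Holds ψ v V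
  | .all i φ, v, V => ∀ a : 𝔐.Num, Holds φ (Function.update v i a) V

/-- The pairing function `⟨m, n⟩ = (m + n)² + m`. -/
def pair (m n : 𝔐.Num) : 𝔐.Num := 𝔐.add (𝔐.mul (𝔐.add m n) (𝔐.add m n)) m

/-- The section `Y^[n] = {m : ⟨n, m⟩ ∈ Y}`. -/
def col (Y : Set 𝔐.Num) (n : 𝔐.Num) : Set 𝔐.Num := {m | 𝔐.pair n m ∈ Y}

end NumStructure

/-- A structure for `L₂`: a first-order part and a family of sets of numbers, the range of the set
variables. -/
structure Model extends NumStructure where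
  sets : Set (Set Num)

namespace Model

variable (𝔐 : Model)

/-- `𝔐` is a model of `RCA₀`: the basic axioms, `Σ⁰₁` induction and `Δ⁰₁` comprehension, with number
and set parameters. -/
structure IsRCA0 : Prop where
  nonempty : 𝔐.sets.Nonempty
  succ_ne_zero : ∀ n, 𝔐.add n 𝔐.one ≠ 𝔐.zero
  succ_inj : ∀ m n, 𝔐.add m 𝔐.one = 𝔐.add n 𝔐.one → m = n
  add_zero : ∀ m, 𝔐.add m 𝔐.zero = m
  add_succ : ∀ m n, 𝔐.add m (𝔐.add n 𝔐.one) = 𝔐.add (𝔐.add m n) 𝔐.one
  mul_zero : ∀ m, 𝔐.mul m 𝔐.zero = 𝔐.zero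
  mul_succ : ∀ m n, 𝔐.mul m (𝔐.add n 𝔐.one) = 𝔐.add (𝔐.mul m n) m
  not_lt_zero : ∀ m, ¬ 𝔐.lt m 𝔐.zero
  lt_succ : ∀ m n, 𝔐.lt m (𝔐.add n 𝔐.one) ↔ (𝔐.lt m n ∨ m = n)
  induction : ∀ φ : Fm, φ.IsSigma → ∀ (v : ℕ → 𝔐.Num) (V : ℕ → Set 𝔐.Num), (∀ i, V i ∈ 𝔐.sets) →
    𝔐.Holds φ (Function.update v 0 𝔐.zero) V →
    (∀ n, 𝔐.Holds φ (Function.update v 0 n) V →
      𝔐.Holds φ (Function.update v 0 (𝔐.add n 𝔐.one)) V) →
    ∀ n, 𝔐.Holds φ (Function.update v 0 n) V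
  comprehension : ∀ φ ψ : Fm, φ.IsSigma → ψ.IsPi →
    ∀ (v : ℕ → 𝔐.Num) (V : ℕ → Set 𝔐.Num), (∀ i, V i ∈ 𝔐.sets) →
    (∀ n, 𝔐.Holds φ (Function.update v 0 n) V ↔ 𝔐.Holds ψ (Function.update v 0 n) V) →
    {n | 𝔐.Holds φ (Function.update v 0 n) V} ∈ 𝔐.sets

/-- The scheme of `Σ¹₁-AC`: for each arithmetic `A(n, X)` (with parameters), if for all `n` there is
`X` with `A(n, X)` then there is `Y` with `A(n, Y^[n])` for all `n`. Here `n` is the number variable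
`0` and `X` is the set variable `0`. -/
def SigmaAC : Prop :=
  ∀ (A : Fm) (v : ℕ → 𝔐.Num) (V : ℕ → Set 𝔐.Num), (∀ i, V i ∈ 𝔐.sets) →
    (∀ n, ∃ X ∈ 𝔐.sets, 𝔐.Holds A (Function.update v 0 n) (Function.update V 0 X)) →
    ∃ Y ∈ 𝔐.sets, ∀ n, 𝔐.Holds A (Function.update v 0 n) (Function.update V 0 (𝔐.col Y n))

/-- The scheme of `finite-Σ¹₁-AC`: the same with the hypothesis that for all `n` there are nonzero
finitely many `X` with `A(n, X)`, that is, there are a set `Z` (coding the finite sequence of the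
`Z^[i]`, `i < j`) and a number `j > 0` such that `A(n, X)` holds iff `X = Z^[i]` for some `i < j`. -/
def FiniteSigmaAC : Prop :=
  ∀ (A : Fm) (v : ℕ → 𝔐.Num) (V : ℕ → Set 𝔐.Num), (∀ i, V i ∈ 𝔐.sets) →
    (∀ n, ∃ Z ∈ 𝔐.sets, ∃ j, 𝔐.lt 𝔐.zero j ∧ ∀ X ∈ 𝔐.sets,
      (𝔐.Holds A (Function.update v 0 n) (Function.update V 0 X) ↔
        ∃ i, 𝔐.lt i j ∧ X = 𝔐.col Z i)) →
    ∃ Y ∈ 𝔐.sets, ∀ n, 𝔐.Holds A (Function.update v 0 n) (Function.update V 0 (𝔐.col Y n))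

/-- The scheme `ABW` (arithmetic Bolzano-Weierstrass): for each arithmetic `A(X)` (with parameters),
either some finite sequence `Z^[i]`, `i < j`, lists every `X` with `A(X)`, or there is an accumulation
point `X`: every basic open neighbourhood of `X`, given by the part of `X` below some `m`, contains two
distinct `Y` with `A(Y)`. -/
def ABW : Prop :=
  ∀ (A : Fm) (v : ℕ → 𝔐.Num) (V : ℕ → Set 𝔐.Num), (∀ i, V i ∈ 𝔐.sets) →
    (∃ Z ∈ 𝔐.sets, ∃ j, ∀ X ∈ 𝔐.sets, 𝔐.Holds A v (Function.update V 0 X) →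
      ∃ i, 𝔐.lt i j ∧ X = 𝔐.col Z i) ∨
    (∃ X ∈ 𝔐.sets, ∀ m, ∃ Y ∈ 𝔐.sets, ∃ Y' ∈ 𝔐.sets, Y ≠ Y' ∧
      𝔐.Holds A v (Function.update V 0 Y) ∧ 𝔐.Holds A v (Function.update V 0 Y') ∧
      ∀ k, 𝔐.lt k m → ((k ∈ Y ↔ k ∈ X) ∧ (k ∈ Y' ↔ k ∈ X)))

end Model

end Pool.Agent.E8helper17.SOA
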