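import Pool.Agent.E8helper17.SOAMain

/-!
# The arithmetic Bolzano-Weierstrass theorem fails in the model
-/

set_option autoImplicit false

namespace Pool.Agent.E8helper17.SOA

open Filter Function

/-- The formula that says that the set `0` is the sequence of the first levels of the hierarchy over
the set `1`, up to the level given by the number variable `1`. -/
def fA1 : Fm :=
  .and (.all 2 (.imp (.mem (.var 2) 0) (.ex 3 (.ex 4 (.eq (.var 2) (prT (.var 3) (.var 4)))))))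
  (.and (.all 2 (.iff (.mem (prT .zero (.var 2)) 0) (.eq (.var 2) (.var 1))))
  (.and (.all 2 (.all 3 (.imp (.lt (.var 1) (.var 2))
    (.neg (.mem (prT (.add (.var 2) .one) (.var 3)) 0)))))
  (.and (.all 2 (.iff (.mem (prT .one (.var 2)) 0) (.mem (.var 2) 1)))
    (.all 2 (.all 3 (.imp (.lt (.var 2) (.var 1))
      (.iff (.mem (prT (.add (.add (.var 2) .one) .one) (.var 3)) 0)
        (.ex 4 (.ex 5 (.or
          (.and (.mem (prT (prT (.var 3) (.var 4)) (.add (.var 5) (.var 5))) 1)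
            (.mem (prT (.add (.var 2) .one) (.var 5)) 0))
          (.and (.mem (prT (prT (.var 3) (.var 4)) (.add (.add (.var 5) (.var 5)) .one)) 1)
            (.neg (.mem (prT (.add (.var 2) .one) (.var 5)) 0)))))))))))))

/-- The formula whose solutions have no accumulation point and cannot be listed. -/
def fA : Fm := .ex 1 fA1

theorem holds_fA1 (v : ℕ → ℕ) (V : ℕ → Set ℕ) : nat.Holds fA1 v V ↔
    (∀ w ∈ V 0, ∃ a b, w = pr a b) ∧ (∀ z, pr 0 z ∈ V 0 ↔ z = v 1) ∧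
    (∀ k z, v 1 < k → pr (k + 1) z ∉ V 0) ∧ (∀ z, pr 1 z ∈ V 0 ↔ z ∈ V 1) ∧
    ∀ k z, k < v 1 → (pr (k + 1 + 1) z ∈ V 0 ↔ ∃ y u,
      (pr (pr z y) (u + u) ∈ V 1 ∧ pr (k + 1) u ∈ V 0) ∨
      (pr (pr z y) (u + u + 1) ∈ V 1 ∧ pr (k + 1) u ∉ V 0)) := by
  simp [fA1]

/-- The solution with `i` levels. -/
def Xi (i : ℕ) : Set ℕ := {w | w = pr 0 i ∨ ∃ k ≤ i, ∃ z ∈ H k, w = pr (k + 1) z}

theorem zero_mem_Xi {i z : ℕ} : pr 0 z ∈ Xi i ↔ z = i := by
  constructor
  · rintro (h | ⟨k, -, u, -, h⟩)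
    · exact (pr_inj h).2
    · exact absurd (pr_inj h).1 (by omega)
  · rintro rfl
    exact Or.inl rfl

theorem succ_mem_Xi {i k z : ℕ} : pr (k + 1) z ∈ Xi i ↔ k ≤ i ∧ z ∈ H k := by
  constructor
  · rintro (h | ⟨k', hk', u, hu, h⟩)
    · exact absurd (pr_inj h).1 (by omega)
    · obtain ⟨h1, rfl⟩ := pr_inj h
      obtain rfl : k = k' := by omega
      exact ⟨hk', hu⟩
  · rintro ⟨h1, h2⟩
    exact Or.inr ⟨k, h1, z, h2, rfl⟩

theorem lit_iff {X : Set ℕ} {k z : ℕ} (hX : ∀ u, pr (k + 1) u ∈ X ↔ u ∈ H k) :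
    (∃ y u, (pr (pr z y) (u + u) ∈ P ∧ pr (k + 1) u ∈ X) ∨
      (pr (pr z y) (u + u + 1) ∈ P ∧ pr (k + 1) u ∉ X)) ↔ z ∈ H (k + 1) := by
  rw [mem_H_succ]
  refine exists_congr fun y => ?_
  simp only [mem_P, hX, Lit, exists_or]
  refine or_congr (exists_congr fun u => ?_) (exists_congr fun u => ?_) <;>
  exact and_congr_left fun _ => eq_comm

theorem holds_Xi (i : ℕ) (v : ℕ → ℕ) (V : ℕ → Set ℕ) (hv : v 1 = i) (h0 : V 0 = Xi i)
    (h1 : V 1 = P) : nat.Holds fA1 v V := by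
  rw [holds_fA1, hv, h0, h1]
  refine ⟨?_, fun z => zero_mem_Xi, fun k z hk h => ?_, fun z => ?_, fun k z hk => ?_⟩
  · rintro w (h | ⟨k, -, u, -, h⟩)
    · exact ⟨_, _, h⟩
    · exact ⟨_, _, h⟩
  · have := (succ_mem_Xi.mp h).1
    omega
  · have := succ_mem_Xi (i := i) (k := 0) (z := z)
    simpa [H] using this
  · rw [succ_mem_Xi]
    have h2 : (∃ y u, (pr (pr z y) (u + u) ∈ P ∧ pr (k + 1) u ∈ Xi i) ∨
      (pr (pr z y) (u + u + 1) ∈ P ∧ pr (k + 1) u ∉ Xi i)) ↔ z ∈ H (k + 1) :=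
      lit_iff fun u => by rw [succ_mem_Xi]; exact ⟨fun h => h.2, fun h => ⟨hk.le, h⟩⟩
    rw [h2]
    exact ⟨fun h => h.2, fun h => ⟨hk, h⟩⟩

theorem eq_Xi (v : ℕ → ℕ) (V : ℕ → Set ℕ) (h1 : V 1 = P) (h : nat.Holds fA1 v V) :
    V 0 = Xi (v 1) := by
  rw [holds_fA1, h1] at h
  obtain ⟨ha, hb, hc, hd, he⟩ := h
  have key : ∀ k ≤ v 1, ∀ z, pr (k + 1) z ∈ V 0 ↔ z ∈ H k := by
    intro k
    induction k with
    | zero => exact fun _ z => hd z
    | succ k ih =>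
      intro hk z
      rw [he k z hk]
      exact lit_iff (ih (by omega))
  ext w
  constructor
  · intro hw
    obtain ⟨a, b, rfl⟩ := ha w hw
    cases a with
    | zero => exact zero_mem_Xi.mpr ((hb b).mp hw)
    | succ k =>
      have hk : k ≤ v 1 := by
        by_contra hk
        exact hc k b (by omega) hw
      exact succ_mem_Xi.mpr ⟨hk, (key k hk b).mp hw⟩
  · rintro (rfl | ⟨k, hk, z, hz, rfl⟩)
    · exact (hb _).mpr rfl
    · exact (key k hk z).mpr hz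

/-- The formula for the union of a set and a section. -/
def fX : Fm := .or (.mem (.var 0) 0) (.ex 2 (.and (.mem (.var 2) 1)
  (.eq (.var 0) (prT (.var 1) (.var 2)))))

theorem mem_C_union {k l n : ℕ} {A B : Set ℕ} (hA : A ∈ C k) (hB : B ∈ C l) :
    ∃ m, {x | x ∈ A ∨ ∃ z ∈ B, x = pr n z} ∈ C m := by
  obtain ⟨m, -, hm⟩ := comprehension fX (max k l)
  refine ⟨m, ?_⟩
  convert hm (fun _ => n) (fun i => if i = 0 then A else B) (fun i => ?_) using 1
  · ext x
    simp [fX]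
  · split_ifs
    · exact C_mono (le_max_left _ _) hA
    · exact C_mono (le_max_right _ _) hB

theorem exists_C_Xi (i : ℕ) : ∃ m, Xi i ∈ C m := by
  have h1 : ∀ i, ∃ m, {w | ∃ k ≤ i, ∃ z ∈ H k, w = pr (k + 1) z} ∈ C m := by
    intro i
    induction i with
    | zero =>
      obtain ⟨m, hm⟩ := mem_C_union (n := 1) C_empty (H_mem 0)
      refine ⟨m, ?_⟩
      convert hm using 1
      ext x
      simp
    | succ i ih =>
      obtain ⟨m, hm⟩ := ih
      obtain ⟨m', hm'⟩ := mem_C_union (n := i + 1 + 1) hm (H_mem (i + 1))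
      refine ⟨m', ?_⟩
      convert hm' using 1
      ext x
      constructor
      · rintro ⟨k, hk, z, hz, rfl⟩
        rcases Nat.lt_or_ge i k with h | h
        · obtain rfl : k = i + 1 := by omega
          exact Or.inr ⟨z, hz, rfl⟩
        · exact Or.inl ⟨k, h, z, hz, rfl⟩
      · rintro (⟨k, hk, z, hz, rfl⟩ | ⟨z, hz, rfl⟩)
        · exact ⟨k, by omega, z, hz, rfl⟩
        · exact ⟨i + 1, le_rfl, z, hz, rfl⟩
  obtain ⟨m, hm⟩ := h1 i
  obtain ⟨l, hl⟩ : ∃ l, ({i} : Set ℕ) ∈ C l := by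
    obtain ⟨l, -, hl⟩ := comprehension (.eq (.var 0) (.var 1)) 1
    refine ⟨l, ?_⟩
    convert hl (fun _ => i) (fun _ => ∅) (fun _ => C_empty) using 1
    ext x
    simp
  obtain ⟨m', hm'⟩ := mem_C_union (n := 0) hm hl
  refine ⟨m', ?_⟩
  convert hm' using 1
  ext x
  simp only [Xi, Set.mem_ofPred_eq, Set.mem_singleton_iff, exists_eq_left]
  exact or_comm

theorem lt_of_Xi_mem {i k : ℕ} (h : Xi i ∈ C k) : i < k + 2 := by
  by_contra hcon
  push Not at hcon
  have h1 := C_sec h (k + 2 + 1)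
  have h2 : nat.col (Xi i) (k + 2 + 1) = H (k + 2) := by
    ext z
    exact (succ_mem_Xi (i := i) (k := k + 2) (z := z)).trans ⟨fun h => h.2, fun h => ⟨hcon, h⟩⟩
  rw [h2] at h1
  exact strict (k + 1) (k + 1) le_rfl h1

theorem Int_inj {B D : ℕ → Set ℕ} (h : Int B = Int D) : ∀ᶠ m in (U : Filter ℕ), B m = D m := by
  by_contra hcon
  rw [← Ultrafilter.eventually_not] at hcon
  have h1 : ∀ m, ∃ a, B m ≠ D m → ¬ (a ∈ B m ↔ a ∈ D m) := by
    intro m
    by_cases hm : B m = D m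
    · exact ⟨0, fun h => absurd hm h⟩
    · by_contra hc
      push Not at hc
      exact hm (Set.ext fun a => (hc a).2)
  choose f hf using h1
  have h2 : (f : NN) ∈ Int B ↔ (f : NN) ∈ Int D := by rw [h]
  rw [mem_Int, mem_Int] at h2
  by_cases h3 : ∀ᶠ m in (U : Filter ℕ), f m ∈ B m
  · obtain ⟨m, ⟨a, b⟩, c⟩ := ((hcon.and h3).and (h2.mp h3)).exists
    exact hf m a ⟨fun _ => c, fun _ => b⟩
  · have h4 := mt h2.mpr h3
    rw [← Ultrafilter.eventually_not] at h3 h4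
    obtain ⟨m, ⟨a, b⟩, c⟩ := ((hcon.and h3).and h4).exists
    exact hf m a ⟨fun h => absurd h b, fun h => absurd h c⟩

/-- The `i`-th solution. -/
def Sol (i : ℕ) : Set NN := Int fun _ => Xi i

theorem Sol_mem (i : ℕ) : Sol i ∈ S := by
  obtain ⟨k, hk⟩ := exists_C_Xi i
  exact ⟨k, fun _ => Xi i, fun _ => hk, rfl⟩

theorem P_mem : Int (fun _ => P) ∈ S := ⟨1, fun _ => P, fun _ => H_mem 0, rfl⟩

theorem holds_iff_nat (D : ℕ → Set ℕ) (f : ℕ → ℕ) :
    ger.Holds fA1 (update (fun _ => (0 : NN)) 1 (f : NN))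
      (update (fun _ => Int fun _ => P) 0 (Int D)) ↔
    ∀ᶠ m in (U : Filter ℕ), nat.Holds fA1 (update (fun _ => 0) 1 (f m))
      (update (fun _ => P) 0 (D m)) := by
  have h1 : (fun _ : ℕ => (0 : NN)) = fun i : ℕ => (((fun _ _ => 0 : ℕ → ℕ → ℕ) i : ℕ → ℕ) : NN) :=
    rfl
  rw [h1, update_rep, update_Int (fun _ _ => P), los]
  simp only [update_at]

theorem Sol_holds (i : ℕ) : ger.Holds fA (fun _ => (0 : NN))
    (update (fun _ => Int fun _ => P) 0 (Sol i)) := by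
  rw [fA, holds_ex]
  refine ⟨((fun _ => i : ℕ → ℕ) : NN), ?_⟩
  rw [Sol, holds_iff_nat]
  refine Eventually.of_forall fun m => holds_Xi i _ _ ?_ ?_ ?_
  · simp
  · simp
  · simp

theorem eq_Sol {X : Set NN} (hX : X ∈ S) (h : ger.Holds fA (fun _ => (0 : NN))
    (update (fun _ => Int fun _ => P) 0 X)) : ∃ i, X = Sol i := by
  obtain ⟨k, D, hD, rfl⟩ := hX
  rw [fA, holds_ex] at h
  obtain ⟨a, ha⟩ := h
  induction a using Germ.inductionOn with
  | _ f =>
    rw [holds_iff_nat] at ha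
    have h1 : ∀ᶠ m in (U : Filter ℕ), D m = Xi (f m) := by
      filter_upwards [ha] with m hm
      have := eq_Xi _ _ (by simp) hm
      simpa using this
    have h2 : ∀ᶠ m in (U : Filter ℕ), f m < k + 2 := by
      filter_upwards [h1] with m hm
      exact lt_of_Xi_mem (hm ▸ hD m)
    have h3 : ∃ i, ∀ᶠ m in (U : Filter ℕ), f m = i := by
      by_contra hcon
      push Not at hcon
      have h4 : ∀ᶠ m in (U : Filter ℕ), ∀ i ∈ Finset.range (k + 2), f m ≠ i := by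
        rw [Filter.eventually_all_finset]
        intro i _
        exact hcon i
      obtain ⟨m, a, b⟩ := (h2.and h4).exists
      exact b (f m) (Finset.mem_range.mpr a) rfl
    obtain ⟨i, hi⟩ := h3
    refine ⟨i, Int_congr ?_⟩
    filter_upwards [h1, hi] with m a b
    rw [a, b]

theorem not_ABW : ¬ MM.ABW := by
  intro h
  have h1 := h fA (fun _ => (0 : NN)) (fun _ => Int fun _ => P) (fun _ => P_mem)
  rcases h1 with ⟨Z, ⟨k, D, hD, rfl⟩, j, h1⟩ | ⟨X, hX, h1⟩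
  · obtain ⟨l, -, hl⟩ := h1 (Sol (k + 3)) (Sol_mem _) (Sol_holds _)
    change Sol (k + 3) = ger.col (Int D) l at hl
    change NN at l
    induction l using Germ.inductionOn with
    | _ g =>
      rw [col_Int] at hl
      obtain ⟨m, hm⟩ := (Int_inj hl).exists
      have h2 := C_sec (hD m) (g m)
      rw [← hm] at h2
      have := lt_of_Xi_mem h2
      omega
  · obtain ⟨Y, hY, Y', hY', hne, hA, hA', hk⟩ := h1 ((fun n => n * n : ℕ → ℕ) : NN)
    obtain ⟨i, rfl⟩ := eq_Sol hY hA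
    obtain ⟨i', rfl⟩ := eq_Sol hY' hA'
    have h2 : MM.lt ((fun _ => pr 0 i : ℕ → ℕ) : NN) ((fun n => n * n : ℕ → ℕ) : NN) := by
      change ((fun _ => pr 0 i : ℕ → ℕ) : NN) < ((fun n => n * n : ℕ → ℕ) : NN)
      rw [Germ.coe_lt]
      have h3 : ∀ᶠ m in (U : Filter ℕ), i + 1 ≤ m :=
        (Nat.hyperfilter_le_atTop) (eventually_ge_atTop (i + 1))
      filter_upwards [h3] with m hm
      rw [pr_eq]
      nlinarith
    obtain ⟨h4, h5⟩ := hk _ h2
    have h6 : ((fun _ => pr 0 i : ℕ → ℕ) : NN) ∈ Sol i := by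
      rw [Sol, mem_Int]
      exact Eventually.of_forall fun _ => zero_mem_Xi.mpr rfl
    have h7 : ((fun _ => pr 0 i : ℕ → ℕ) : NN) ∈ Sol i' := h5.mpr (h4.mp h6)
    rw [Sol, mem_Int] at h7
    obtain ⟨_, h8⟩ := h7.exists
    exact hne (by rw [zero_mem_Xi.mp h8])

end Pool.Agent.E8helper17.SOA
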