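import Pool.Agent.E8helper17.SOALos

/-!
# A hierarchy of families of sets of natural numbers, closed under arithmetic comprehension
-/

set_option autoImplicit false

namespace Pool.Agent.E8helper17.SOA

open Filter Function

deriving instance Encodable for Tm

/-- Pairing on the natural numbers. -/
abbrev pr (a b : ℕ) : ℕ := nat.pair a b

theorem pr_eq (a b : ℕ) : pr a b = (a + b) * (a + b) + a := rfl

theorem pr_inj {a b c d : ℕ} (h : pr a b = pr c d) : a = c ∧ b = d := by
  rw [pr_eq, pr_eq] at h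
  have key : ∀ s t a c : ℕ, a ≤ s → s < t → s * s + a < t * t + c := by
    intro s t a c h1 h2
    nlinarith
  rcases lt_trichotomy (a + b) (c + d) with h1 | h1 | h1
  · exact absurd h (key _ _ a c (Nat.le_add_right a b) h1).ne
  · rw [h1] at h
    omega
  · exact absurd h (key _ _ c a (Nat.le_add_right c d) h1).ne'

theorem pr_iff {a b c d : ℕ} : pr a b = pr c d ↔ a = c ∧ b = d :=
  ⟨pr_inj, fun h => by rw [h.1, h.2]⟩

theorem pr_ne_three (a b : ℕ) : pr a b ≠ 3 := by
  rw [pr_eq]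
  intro h
  have h1 : a + b ≤ 1 := by nlinarith
  have h2 : a ≤ 1 := by omega
  interval_cases hab : a + b <;> omega

/-- A surjection onto the finitely supported assignments. -/
noncomputable def env (e : ℕ) : ℕ →₀ ℕ := Classical.choose (exists_surjective_nat (ℕ →₀ ℕ)) e

theorem env_surj : Surjective env := Classical.choose_spec (exists_surjective_nat (ℕ →₀ ℕ))

/-- A code of an assignment. -/
noncomputable def cd (f : ℕ →₀ ℕ) : ℕ := surjInv env_surj f

@[simp] theorem env_cd (f : ℕ →₀ ℕ) : env (cd f) = f := surjInv_eq env_surj f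

/-- Names of some functions. -/
inductive F : Type
  | self : F
  | tm : Tm → F
  | up : ℕ → F
  | sec : ℕ → F
  | diag : F

deriving instance Encodable for F

/-- The function named. -/
noncomputable def F.ap : F → ℕ → ℕ
  | .self, x => x
  | .tm t, x => nat.eval t (env x)
  | .up e, x => cd ((env e).update 0 x)
  | .sec l, x => pr l x
  | .diag, x => pr x x

/-- Names of instructions. -/
inductive Q : Type
  | dir : Q
  | pos : ℕ → F → Q
  | neg : ℕ → F → Q
  | nand : ℕ → ℕ → Q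
  | nall : ℕ → ℕ → Q
  | eqb : Tm → Tm → Q
  | ltb : Tm → Tm → Q

deriving instance Encodable for Q

/-- The query of an instruction at `x`, `y`: the literal `u ∈ H` is coded by `u + u` and `u ∉ H` by
`u + u + 1`. -/
noncomputable def Q.ap : Q → ℕ → ℕ → ℕ
  | .dir, x, _ => x + x
  | .pos a f, x, _ => pr a (f.ap x) + pr a (f.ap x)
  | .neg a f, x, _ => pr a (f.ap x) + pr a (f.ap x) + 1
  | .nand a b, x, y => if y = 0 then pr a x + pr a x + 1 else pr b x + pr b x + 1
  | .nall a i, x, y => pr a (cd ((env x).update i y)) + pr a (cd ((env x).update i y)) + 1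
  | .eqb s t, x, _ => by
      classical exact if nat.eval s (env x) = nat.eval t (env x) then 3 + 3 + 1 else 3 + 3
  | .ltb s t, x, _ => by
      classical exact if nat.eval s (env x) < nat.eval t (env x) then 3 + 3 + 1 else 3 + 3

instance : Nonempty Q := ⟨.dir⟩

/-- An enumeration of the instructions. -/
noncomputable def Qn (c : ℕ) : Q := Classical.choose (exists_surjective_nat Q) c

theorem Qn_surj : Surjective Qn := Classical.choose_spec (exists_surjective_nat Q)

open Classical in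
/-- The table of all queries. -/
noncomputable def G (z y : ℕ) : ℕ :=
  if h : ∃ c x, z = pr c x then (Qn h.choose).ap h.choose_spec.choose y else 0

theorem G_pr (c x y : ℕ) : G (pr c x) y = (Qn c).ap x y := by
  have h : ∃ c' x', pr c x = pr c' x' := ⟨c, x, rfl⟩
  rw [G, dif_pos h]
  have h1 := pr_inj h.choose_spec.choose_spec
  have key : ∀ c' x', c = c' → x = x' → (Qn c').ap x' y = (Qn c).ap x y := by
    rintro _ _ rfl rfl
    rfl
  exact key _ _ h1.1 h1.2

/-- The graph of the table. -/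
def P : Set ℕ := {w | ∃ z y, w = pr (pr z y) (G z y)}

theorem mem_P {z y w : ℕ} : pr (pr z y) w ∈ P ↔ w = G z y := by
  constructor
  · rintro ⟨z', y', h⟩
    have h1 := pr_inj h
    have h2 := pr_inj h1.1
    rw [h1.2, h2.1, h2.2]
  · rintro rfl
    exact ⟨z, y, rfl⟩

/-- The literal coded by `w` is true in `H`. -/
def Lit (H : Set ℕ) (w : ℕ) : Prop := (∃ u, w = u + u ∧ u ∈ H) ∨ ∃ u, w = u + u + 1 ∧ u ∉ H

theorem lit_even {H : Set ℕ} {u : ℕ} : Lit H (u + u) ↔ u ∈ H := by
  constructor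
  · rintro (⟨w, h, hw⟩ | ⟨w, h, -⟩)
    · rwa [show u = w by omega]
    · omega
  · exact fun h => Or.inl ⟨u, rfl, h⟩

theorem lit_odd {H : Set ℕ} {u : ℕ} : Lit H (u + u + 1) ↔ u ∉ H := by
  constructor
  · rintro (⟨w, h, -⟩ | ⟨w, h, hw⟩)
    · omega
    · rwa [show u = w by omega]
  · exact fun h => Or.inr ⟨u, rfl, h⟩

/-- The hierarchy of universal sets. -/
def H : ℕ → Set ℕ
  | 0 => P
  | k + 1 => {z | ∃ y, Lit (H k) (G z y)}

theorem mem_H_succ {k z : ℕ} : z ∈ H (k + 1) ↔ ∃ y, Lit (H k) (G z y) := Iff.rfl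

/-- The family of the sections of `H k`. -/
def C (k : ℕ) : Set (Set ℕ) := {A | ∃ c, A = nat.col (H k) c}

theorem C_of_Q (q : Q) (k : ℕ) : {x | ∃ y, Lit (H k) (q.ap x y)} ∈ C (k + 1) := by
  obtain ⟨c, rfl⟩ := Qn_surj q
  refine ⟨c, ?_⟩
  ext x
  change (∃ y, Lit (H k) ((Qn c).ap x y)) ↔ pr c x ∈ H (k + 1)
  rw [mem_H_succ]
  simp only [G_pr]

theorem C_pos {k : ℕ} {A : Set ℕ} (h : A ∈ C k) (f : F) : {x | f.ap x ∈ A} ∈ C (k + 1) := by
  obtain ⟨a, rfl⟩ := h
  convert C_of_Q (.pos a f) k using 1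
  ext x
  simp only [Q.ap, lit_even, exists_const]
  rfl

theorem C_neg {k : ℕ} {A : Set ℕ} (h : A ∈ C k) (f : F) : {x | f.ap x ∉ A} ∈ C (k + 1) := by
  obtain ⟨a, rfl⟩ := h
  convert C_of_Q (.neg a f) k using 1
  ext x
  simp only [Q.ap, lit_odd, exists_const]
  rfl

theorem C_nand {k : ℕ} {A B : Set ℕ} (h : A ∈ C k) (h' : B ∈ C k) :
    {x | ¬ (x ∈ A ∧ x ∈ B)} ∈ C (k + 1) := by
  obtain ⟨a, rfl⟩ := h
  obtain ⟨b, rfl⟩ := h'
  convert C_of_Q (.nand a b) k using 1
  ext x
  simp only [Q.ap]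
  constructor
  · intro hx
    by_cases h1 : x ∈ nat.col (H k) a
    · refine ⟨1, ?_⟩
      rw [if_neg one_ne_zero, lit_odd]
      exact fun h2 => hx ⟨h1, h2⟩
    · refine ⟨0, ?_⟩
      rw [if_pos rfl, lit_odd]
      exact h1
  · rintro ⟨y, hy⟩ ⟨h1, h2⟩
    split_ifs at hy with h0
    · exact lit_odd.mp hy h1
    · exact lit_odd.mp hy h2

theorem C_nall {k : ℕ} {A : Set ℕ} (h : A ∈ C k) (i : ℕ) :
    {x | ¬ ∀ y, cd ((env x).update i y) ∈ A} ∈ C (k + 1) := by
  obtain ⟨a, rfl⟩ := h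
  convert C_of_Q (.nall a i) k using 1
  ext x
  simp only [Q.ap, lit_odd, Set.mem_ofPred_eq, not_forall]
  rfl

theorem C_mono_succ {k : ℕ} : C k ⊆ C (k + 1) := fun _ h => C_pos h .self

theorem C_mono {k l : ℕ} (h : k ≤ l) : C k ⊆ C l := by
  induction h with
  | refl => exact le_rfl
  | step _ ih => exact ih.trans C_mono_succ

theorem three_not_mem_P : 3 ∉ P := by
  rintro ⟨z, y, h⟩
  exact pr_ne_three _ _ h.symm

theorem C_eqb (s t : Tm) : {x | nat.eval s (env x) = nat.eval t (env x)} ∈ C 1 := by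
  convert C_of_Q (.eqb s t) 0 using 1
  ext x
  simp only [Q.ap, exists_const, Set.mem_ofPred_eq]
  split_ifs with h
  · rw [lit_odd]
    exact ⟨fun _ => three_not_mem_P, fun _ => h⟩
  · rw [lit_even]
    exact ⟨fun h' => absurd h' h, fun h' => absurd h' three_not_mem_P⟩

theorem C_ltb (s t : Tm) : {x | nat.eval s (env x) < nat.eval t (env x)} ∈ C 1 := by
  convert C_of_Q (.ltb s t) 0 using 1
  ext x
  simp only [Q.ap, exists_const, Set.mem_ofPred_eq]
  split_ifs with h
  · rw [lit_odd]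
    exact ⟨fun _ => three_not_mem_P, fun _ => h⟩
  · rw [lit_even]
    exact ⟨fun h' => absurd h' h, fun h' => absurd h' three_not_mem_P⟩

theorem H_mem (k : ℕ) : H k ∈ C (k + 1) := by
  convert C_of_Q .dir k using 1
  ext x
  simp only [Q.ap, exists_const, lit_even]
  rfl

theorem C_compl {k : ℕ} {A : Set ℕ} (h : {x | ¬ x ∈ A} ∈ C k) : A ∈ C (k + 1) := by
  convert C_neg h .self using 1
  ext x
  simp [F.ap]

theorem C_empty : (∅ : Set ℕ) ∈ C 1 := by
  convert C_eqb .zero .one using 1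
  ext x
  simp

/-- Closure under arithmetic comprehension, for coded assignments. -/
theorem closure (φ : Fm) (k : ℕ) : ∃ k', k ≤ k' ∧ ∀ V : ℕ → Set ℕ, (∀ i, V i ∈ C k) →
    {e | nat.Holds φ (env e) V} ∈ C k' := by
  induction φ with
  | eq s t => exact ⟨k + 1, Nat.le_succ k, fun V _ => C_mono (by omega) (C_eqb s t)⟩
  | lt s t => exact ⟨k + 1, Nat.le_succ k, fun V _ => C_mono (by omega) (C_ltb s t)⟩
  | mem t i => exact ⟨k + 1, Nat.le_succ k, fun V hV => C_pos (hV i) (.tm t)⟩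
  | neg φ ih =>
    obtain ⟨l, hl, h⟩ := ih
    exact ⟨l + 1, by omega, fun V hV => C_neg (h V hV) .self⟩
  | and φ ψ ih ih' =>
    obtain ⟨l, hl, h⟩ := ih
    obtain ⟨l', hl', h'⟩ := ih'
    refine ⟨max l l' + 1 + 1, by omega, fun V hV => ?_⟩
    exact C_compl (C_nand (C_mono (le_max_left l l') (h V hV))
      (C_mono (le_max_right l l') (h' V hV)))
  | all i φ ih =>
    obtain ⟨l, hl, h⟩ := ih
    refine ⟨l + 1 + 1, by omega, fun V hV => ?_⟩
    convert C_compl (A := {e | ∀ y, cd ((env e).update i y) ∈ {e | nat.Holds φ (env e) V}})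
      (C_nall (h V hV) i) using 1
    ext e
    simp only [holds_all, Set.mem_ofPred_eq, env_cd, Finsupp.coe_update]

/-- Closure under arithmetic comprehension. -/
theorem comprehension (φ : Fm) (k : ℕ) : ∃ k', k ≤ k' ∧ ∀ (v : ℕ → ℕ) (V : ℕ → Set ℕ),
    (∀ i, V i ∈ C k) → {x | nat.Holds φ (update v 0 x) V} ∈ C k' := by
  obtain ⟨l, hl, h⟩ := closure φ k
  refine ⟨l + 1, by omega, fun v V hV => ?_⟩
  obtain ⟨e, he⟩ : ∃ e, ∀ i < φ.bd, env e i = v i := by
    obtain ⟨e, he⟩ := env_surj (Finsupp.onFinset (Finset.range φ.bd)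
      (fun i => if i < φ.bd then v i else 0) (fun i hi => by
        rw [Finset.mem_range]
        by_contra h
        exact hi (if_neg h)))
    refine ⟨e, fun i hi => ?_⟩
    rw [he, Finsupp.onFinset_apply, if_pos hi]
  convert C_pos (h V hV) (.up e) using 1
  ext x
  simp only [Set.mem_ofPred_eq, F.ap, env_cd, Finsupp.coe_update]
  refine holds_congr nat φ (fun i hi => ?_) fun i _ => rfl
  rcases eq_or_ne i 0 with rfl | h0
  · rw [update_self, update_self]
  · rw [update_of_ne h0, update_of_ne h0, he i hi]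

/-- Sections. -/
theorem C_sec {k : ℕ} {A : Set ℕ} (h : A ∈ C k) (l : ℕ) : nat.col A l ∈ C (k + 1) :=
  C_pos h (.sec l)

/-- The hierarchy is strict. -/
theorem strict (k l : ℕ) (h : l ≤ k) : H (k + 1) ∉ C l := by
  intro hk
  obtain ⟨e, he⟩ := C_mono (by omega : l + 1 ≤ k + 1) (C_neg hk .diag)
  have : (e ∈ {x | F.diag.ap x ∉ H (k + 1)}) ↔ e ∈ nat.col (H (k + 1)) e := by rw [he]
  change (pr e e ∉ H (k + 1)) ↔ pr e e ∈ H (k + 1) at this
  tauto

end Pool.Agent.E8helper17.SOA
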