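import Pool.Agent.E8helper17.SOADefs

/-!
# Basic facts on arithmetic formulas, and Łoś's theorem for internal sets
-/

set_option autoImplicit false

namespace Pool.Agent.E8helper17.SOA

open Filter Function

/-- Disjunction. -/
def Fm.or (φ ψ : Fm) : Fm := .neg (.and (.neg φ) (.neg ψ))

/-- Equivalence. -/
def Fm.iff (φ ψ : Fm) : Fm := .and (.imp φ ψ) (.imp ψ φ)

/-- The term for the pairing function. -/
def prT (s t : Tm) : Tm := .add (.mul (.add s t) (.add s t)) s

section
variable (𝔐 : NumStructure) (v : ℕ → 𝔐.Num) (V : ℕ → Set 𝔐.Num)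

@[simp] theorem eval_var (i : ℕ) : 𝔐.eval (.var i) v = v i := rfl
@[simp] theorem eval_zero : 𝔐.eval .zero v = 𝔐.zero := rfl
@[simp] theorem eval_one : 𝔐.eval .one v = 𝔐.one := rfl
@[simp] theorem eval_add (s t : Tm) : 𝔐.eval (.add s t) v = 𝔐.add (𝔐.eval s v) (𝔐.eval t v) := rfl
@[simp] theorem eval_mul (s t : Tm) : 𝔐.eval (.mul s t) v = 𝔐.mul (𝔐.eval s v) (𝔐.eval t v) := rfl
@[simp] theorem eval_prT (s t : Tm) : 𝔐.eval (prT s t) v = 𝔐.pair (𝔐.eval s v) (𝔐.eval t v) := rfl
@[simp] theorem holds_eq (s t : Tm) : 𝔐.Holds (.eq s t) v V ↔ 𝔐.eval s v = 𝔐.eval t v := Iff.rfl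
@[simp] theorem holds_lt (s t : Tm) :
    𝔐.Holds (.lt s t) v V ↔ 𝔐.lt (𝔐.eval s v) (𝔐.eval t v) := Iff.rfl
@[simp] theorem holds_mem (t : Tm) (i : ℕ) : 𝔐.Holds (.mem t i) v V ↔ 𝔐.eval t v ∈ V i := Iff.rfl
@[simp] theorem holds_neg (φ : Fm) : 𝔐.Holds (.neg φ) v V ↔ ¬ 𝔐.Holds φ v V := Iff.rfl
@[simp] theorem holds_and (φ ψ : Fm) :
    𝔐.Holds (.and φ ψ) v V ↔ 𝔐.Holds φ v V ∧ 𝔐.Holds ψ v V := Iff.rfl
@[simp] theorem holds_all (i : ℕ) (φ : Fm) :
    𝔐.Holds (.all i φ) v V ↔ ∀ a, 𝔐.Holds φ (update v i a) V := Iff.rfl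
@[simp] theorem holds_imp (φ ψ : Fm) :
    𝔐.Holds (.imp φ ψ) v V ↔ (𝔐.Holds φ v V → 𝔐.Holds ψ v V) := by
  rw [Fm.imp, holds_neg, holds_and, holds_neg]; tauto
@[simp] theorem holds_or (φ ψ : Fm) :
    𝔐.Holds (.or φ ψ) v V ↔ (𝔐.Holds φ v V ∨ 𝔐.Holds ψ v V) := by
  rw [Fm.or, holds_neg, holds_and, holds_neg, holds_neg]; tauto
@[simp] theorem holds_iff (φ ψ : Fm) :
    𝔐.Holds (.iff φ ψ) v V ↔ (𝔐.Holds φ v V ↔ 𝔐.Holds ψ v V) := by
  rw [Fm.iff, holds_and, holds_imp, holds_imp]; tauto
@[simp] theorem holds_ex (i : ℕ) (φ : Fm) :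
    𝔐.Holds (.ex i φ) v V ↔ ∃ a, 𝔐.Holds φ (update v i a) V := by
  rw [Fm.ex, holds_neg, holds_all]; simp
end

/-- A bound for the variables of a term. -/
def Tm.bd : Tm → ℕ
  | .var i => i + 1
  | .zero => 0
  | .one => 0
  | .add s t => max s.bd t.bd
  | .mul s t => max s.bd t.bd

/-- A bound for the variables of a formula. -/
def Fm.bd : Fm → ℕ
  | .eq s t => max s.bd t.bd
  | .lt s t => max s.bd t.bd
  | .mem t i => max t.bd (i + 1)
  | .neg φ => φ.bd
  | .and φ ψ => max φ.bd ψ.bd
  | .all i φ => max (i + 1) φ.bd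

theorem eval_congr (𝔐 : NumStructure) (t : Tm) {v w : ℕ → 𝔐.Num} (h : ∀ i < t.bd, v i = w i) :
    𝔐.eval t v = 𝔐.eval t w := by
  induction t with
  | var i => exact h i (Nat.lt_succ_self i)
  | zero => rfl
  | one => rfl
  | add s t hs ht =>
    rw [eval_add, eval_add, hs fun i hi => h i (lt_max_of_lt_left hi),
      ht fun i hi => h i (lt_max_of_lt_right hi)]
  | mul s t hs ht =>
    rw [eval_mul, eval_mul, hs fun i hi => h i (lt_max_of_lt_left hi),
      ht fun i hi => h i (lt_max_of_lt_right hi)]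

theorem holds_congr (𝔐 : NumStructure) (φ : Fm) {v w : ℕ → 𝔐.Num} {V W : ℕ → Set 𝔐.Num}
    (h : ∀ i < φ.bd, v i = w i) (h' : ∀ i < φ.bd, V i = W i) :
    𝔐.Holds φ v V ↔ 𝔐.Holds φ w W := by
  induction φ generalizing v w with
  | eq s t =>
    rw [holds_eq, holds_eq, eval_congr 𝔐 s fun i hi => h i (lt_max_of_lt_left hi),
      eval_congr 𝔐 t fun i hi => h i (lt_max_of_lt_right hi)]
  | lt s t =>
    rw [holds_lt, holds_lt, eval_congr 𝔐 s fun i hi => h i (lt_max_of_lt_left hi),
      eval_congr 𝔐 t fun i hi => h i (lt_max_of_lt_right hi)]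
  | mem t i =>
    rw [holds_mem, holds_mem, eval_congr 𝔐 t fun j hj => h j (lt_max_of_lt_left hj),
      h' i (lt_max_of_lt_right (Nat.lt_succ_self i))]
  | neg φ ih => rw [holds_neg, holds_neg, ih h h']
  | and φ ψ ih ih' =>
    rw [holds_and, holds_and, ih (fun i hi => h i (lt_max_of_lt_left hi))
      (fun i hi => h' i (lt_max_of_lt_left hi)), ih' (fun i hi => h i (lt_max_of_lt_right hi))
      (fun i hi => h' i (lt_max_of_lt_right hi))]
  | all i φ ih =>
    rw [holds_all, holds_all]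
    refine forall_congr' fun a => ih (fun j hj => ?_) fun j hj => h' j (lt_max_of_lt_right hj)
    rcases eq_or_ne j i with rfl | hji
    · rw [update_self, update_self]
    · rw [update_of_ne hji, update_of_ne hji]
      exact h j (lt_max_of_lt_right hj)

/-- The standard natural numbers. -/
abbrev nat : NumStructure := ⟨ℕ, 0, 1, (· + ·), (· * ·), (· < ·)⟩

/-- The ultrafilter. -/
noncomputable abbrev U : Ultrafilter ℕ := hyperfilter ℕ

/-- The set of the nonstandard natural numbers. -/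
abbrev NN : Type := Germ (U : Filter ℕ) ℕ

/-- The ultrapower of the natural numbers. -/
noncomputable abbrev ger : NumStructure := ⟨NN, 0, 1, (· + ·), (· * ·), (· < ·)⟩

/-- The internal set given by a sequence of sets. -/
def Int (B : ℕ → Set ℕ) : Set NN := {x | ∃ f : ℕ → ℕ, x = (f : NN) ∧ ∀ᶠ m in (U : Filter ℕ), f m ∈ B m}

theorem mem_Int {B : ℕ → Set ℕ} {f : ℕ → ℕ} :
    (f : NN) ∈ Int B ↔ ∀ᶠ m in (U : Filter ℕ), f m ∈ B m := by
  constructor
  · rintro ⟨g, hg, h⟩
    have := Germ.coe_eq.mp hg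
    filter_upwards [this, h] with m h1 h2
    rwa [h1]
  · exact fun h => ⟨f, rfl, h⟩

theorem Int_congr {B C : ℕ → Set ℕ} (h : ∀ᶠ m in (U : Filter ℕ), B m = C m) : Int B = Int C := by
  ext x
  induction x using Germ.inductionOn with
  | _ f =>
    rw [mem_Int, mem_Int]
    apply eventually_congr
    filter_upwards [h] with m hm
    rw [hm]

theorem eval_los (t : Tm) (v : ℕ → ℕ → ℕ) :
    ger.eval t (fun i => ((v i : ℕ → ℕ) : NN)) = ((fun m => nat.eval t fun i => v i m : ℕ → ℕ) : NN) := by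
  induction t with
  | var i => rfl
  | zero => rfl
  | one => rfl
  | add s t hs ht => rw [eval_add, hs, ht]; rfl
  | mul s t hs ht => rw [eval_mul, hs, ht]; rfl

theorem los (φ : Fm) (v : ℕ → ℕ → ℕ) (B : ℕ → ℕ → Set ℕ) :
    ger.Holds φ (fun i => ((v i : ℕ → ℕ) : NN)) (fun i => Int (B i)) ↔
      ∀ᶠ m in (U : Filter ℕ), nat.Holds φ (fun i => v i m) (fun i => B i m) := by
  induction φ generalizing v with
  | eq s t =>
    rw [holds_eq, eval_los, eval_los, Germ.coe_eq]
    rfl
  | lt s t =>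
    rw [holds_lt, eval_los, eval_los]
    exact Germ.coe_lt
  | mem t i =>
    rw [holds_mem, eval_los, mem_Int]
    rfl
  | neg φ ih =>
    rw [holds_neg, ih, ← Ultrafilter.eventually_not]
    rfl
  | and φ ψ ih ih' =>
    rw [holds_and, ih, ih', ← eventually_and]
    rfl
  | all i φ ih =>
    have key : ∀ f : ℕ → ℕ, update (fun j => ((v j : ℕ → ℕ) : NN)) i (f : NN) =
        fun j => ((update v i f j : ℕ → ℕ) : NN) := by
      intro f
      funext j
      rcases eq_or_ne j i with rfl | hji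
      · rw [update_self, update_self]
      · rw [update_of_ne hji, update_of_ne hji]
    have key2 : ∀ (f : ℕ → ℕ) (m : ℕ), (fun j => update v i f j m) =
        update (fun j => v j m) i (f m) := by
      intro f m
      funext j
      rcases eq_or_ne j i with rfl | hji
      · rw [update_self, update_self]
      · rw [update_of_ne hji, update_of_ne hji]
    rw [holds_all]
    constructor
    · intro h
      by_contra hcon
      rw [← Ultrafilter.eventually_not] at hcon
      have h1 : ∀ m, ∃ a, (¬ nat.Holds (.all i φ) (fun i => v i m) (fun i => B i m)) →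
          ¬ nat.Holds φ (update (fun j => v j m) i a) (fun i => B i m) := by
        intro m
        by_cases hm : nat.Holds (.all i φ) (fun i => v i m) (fun i => B i m)
        · exact ⟨0, fun h => absurd hm h⟩
        · rw [holds_all, not_forall] at hm
          obtain ⟨a, ha⟩ := hm
          exact ⟨a, fun _ => ha⟩
      choose f hf using h1
      have h2 := h (f : NN)
      rw [key f, ih] at h2
      have h3 := hcon.and h2
      obtain ⟨m, hm1, hm2⟩ := h3.exists
      rw [key2] at hm2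
      exact hf m hm1 hm2
    · intro h a
      induction a using Germ.inductionOn with
      | _ f =>
        rw [key f, ih]
        filter_upwards [h] with m hm
        rw [key2]
        exact hm (f m)

/-- Each assignment of number variables is given by a sequence of standard assignments. -/
theorem exists_rep (v : ℕ → NN) : ∃ w : ℕ → ℕ → ℕ, v = fun i => ((w i : ℕ → ℕ) : NN) := by
  have : ∀ i, ∃ f : ℕ → ℕ, v i = (f : NN) := fun i => by
    induction v i using Germ.inductionOn with
    | _ f => exact ⟨f, rfl⟩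
  choose w hw using this
  exact ⟨w, funext hw⟩

theorem update_rep (v : ℕ → ℕ → ℕ) (i : ℕ) (f : ℕ → ℕ) :
    update (fun j => ((v j : ℕ → ℕ) : NN)) i (f : NN) =
        fun j => ((update v i f j : ℕ → ℕ) : NN) := by
  funext j
  rcases eq_or_ne j i with rfl | hji
  · rw [update_self, update_self]
  · rw [update_of_ne hji, update_of_ne hji]

theorem update_at {α : Type} (v : ℕ → ℕ → α) (i : ℕ) (f : ℕ → α) (m : ℕ) :
    (fun j => update v i f j m) = update (fun j => v j m) i (f m) := by
  funext j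
  rcases eq_or_ne j i with rfl | hji
  · rw [update_self, update_self]
  · rw [update_of_ne hji, update_of_ne hji]

theorem update_Int (B : ℕ → ℕ → Set ℕ) (i : ℕ) (f : ℕ → Set ℕ) :
    update (fun j => Int (B j)) i (Int f) = fun j => Int (update B i f j) := by
  funext j
  rcases eq_or_ne j i with rfl | hji
  · rw [update_self, update_self]
  · rw [update_of_ne hji, update_of_ne hji]

end Pool.Agent.E8helper17.SOA
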