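import Pool.Agent.E8helper17.SOAHier

/-!
# The model: closure under arithmetic comprehension, induction and `Σ¹₁-AC`
-/

set_option autoImplicit false

namespace Pool.Agent.E8helper17.SOA

open Filter Function

/-- The sets of the model. -/
def S : Set (Set NN) := {X | ∃ k, ∃ B : ℕ → Set ℕ, (∀ m, B m ∈ C k) ∧ X = Int B}

/-- The model. -/
noncomputable def MM : Model := ⟨ger, S⟩

theorem rep_sets (N : ℕ) (V : ℕ → Set NN) (hV : ∀ i, V i ∈ S) :
    ∃ K, 1 ≤ K ∧ ∃ B : ℕ → ℕ → Set ℕ, (∀ i m, B i m ∈ C K) ∧ ∀ i < N, V i = Int (B i) := by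
  choose k B hB hVB using hV
  refine ⟨(Finset.range N).sup k + 1, by omega,
    fun i => if i < N then B i else fun _ => ∅, fun i m => ?_, fun i hi => ?_⟩
  · by_cases hi : i < N
    · simp only [if_pos hi]
      exact C_mono (le_trans (Finset.le_sup (f := k) (Finset.mem_range.mpr hi)) (Nat.le_succ _))
        (hB i m)
    · simp only [if_neg hi]
      exact C_mono (by omega) C_empty
  · simp only [if_pos hi]
    exact hVB i

theorem holds_rep (φ : Fm) (v : ℕ → NN) (w : ℕ → ℕ → ℕ) (hv : v = fun i => ((w i : ℕ → ℕ) : NN))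
    (V : ℕ → Set NN) (B : ℕ → ℕ → Set ℕ) (hB : ∀ i < φ.bd, V i = Int (B i)) (f : ℕ → ℕ) :
    ger.Holds φ (update v 0 (f : NN)) V ↔
      ∀ᶠ m in (U : Filter ℕ), nat.Holds φ (update (fun i => w i m) 0 (f m)) (fun i => B i m) := by
  rw [holds_congr ger φ (fun i _ => rfl) hB, hv, update_rep, los]
  simp only [update_at]

theorem holds_rep' (φ : Fm) (v : ℕ → NN) (w : ℕ → ℕ → ℕ) (hv : v = fun i => ((w i : ℕ → ℕ) : NN))
    (V : ℕ → Set NN) (B : ℕ → ℕ → Set ℕ) (hB : ∀ i < φ.bd, V i = Int (B i)) (f : ℕ → ℕ)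
    (D : ℕ → Set ℕ) :
    ger.Holds φ (update v 0 (f : NN)) (update V 0 (Int D)) ↔
      ∀ᶠ m in (U : Filter ℕ), nat.Holds φ (update (fun i => w i m) 0 (f m))
        (update (fun i => B i m) 0 (D m)) := by
  rw [holds_rep φ v w hv (update V 0 (Int D)) (update B 0 D) (fun i hi => ?_) f]
  · simp only [update_at]
  · rcases eq_or_ne i 0 with rfl | h0
    · rw [update_self, update_self]
    · rw [update_of_ne h0, update_of_ne h0, hB i hi]

theorem S_comprehension (φ : Fm) (v : ℕ → NN) (V : ℕ → Set NN) (hV : ∀ i, V i ∈ S) :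
    {x | ger.Holds φ (update v 0 x) V} ∈ S := by
  obtain ⟨K, -, B, hBC, hB⟩ := rep_sets φ.bd V hV
  obtain ⟨K', -, h⟩ := comprehension φ K
  obtain ⟨w, hw⟩ := exists_rep v
  refine ⟨K', fun m => {x | nat.Holds φ (update (fun i => w i m) 0 x) (fun i => B i m)},
    fun m => h _ _ fun i => hBC i m, ?_⟩
  ext x
  induction x using Germ.inductionOn with
  | _ f =>
    rw [mem_Int]
    exact holds_rep φ v w hw V B hB f

theorem S_induction (φ : Fm) (v : ℕ → NN) (V : ℕ → Set NN) (hV : ∀ i, V i ∈ S)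
    (h0 : ger.Holds φ (update v 0 0) V)
    (h1 : ∀ n : NN, ger.Holds φ (update v 0 n) V → ger.Holds φ (update v 0 (n + 1)) V) (n : NN) :
    ger.Holds φ (update v 0 n) V := by
  obtain ⟨K, -, B, hBC, hB⟩ := rep_sets φ.bd V hV
  obtain ⟨w, hw⟩ := exists_rep v
  have key := holds_rep φ v w hw V B hB
  induction n using Germ.inductionOn with
  | _ f =>
    by_contra hcon
    rw [key, ← Ultrafilter.eventually_not] at hcon
    have h0' : ∀ᶠ m in (U : Filter ℕ), nat.Holds φ (update (fun i => w i m) 0 0) (fun i => B i m) :=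
      (key (fun _ => 0)).mp h0
    have h2 : ∀ m, ∃ c, nat.Holds φ (update (fun i => w i m) 0 0) (fun i => B i m) →
        ¬ nat.Holds φ (update (fun i => w i m) 0 (f m)) (fun i => B i m) →
        nat.Holds φ (update (fun i => w i m) 0 c) (fun i => B i m) ∧
        ¬ nat.Holds φ (update (fun i => w i m) 0 (c + 1)) (fun i => B i m) := by
      intro m
      by_contra hc
      push Not at hc
      have ha := (hc 0).1
      have hall : ∀ c, nat.Holds φ (update (fun i => w i m) 0 c) (fun i => B i m) := by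
        intro c
        induction c with
        | zero => exact ha
        | succ c ih => exact (hc c).2.2 ih
      exact (hc 0).2.1 (hall (f m))
    choose g hg using h2
    have h3 : ger.Holds φ (update v 0 (g : NN)) V := by
      rw [key]
      filter_upwards [h0', hcon] with m a b
      exact (hg m a b).1
    have h4 := h1 _ h3
    have h5 : ((g : NN) + 1) = ((fun m => g m + 1 : ℕ → ℕ) : NN) := rfl
    rw [h5, key] at h4
    obtain ⟨m, ⟨a, b⟩, c⟩ := ((h0'.and hcon).and h4).exists
    exact (hg m a b).2 c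

theorem isRCA0 : MM.IsRCA0 where
  nonempty := ⟨Int fun _ => ∅, 1, fun _ => ∅, fun _ => C_empty, rfl⟩
  succ_ne_zero := by
    intro n
    induction n using Germ.inductionOn with
    | _ f =>
      intro h
      change ((fun m => f m + 1 : ℕ → ℕ) : NN) = ((fun _ => 0 : ℕ → ℕ) : NN) at h
      obtain ⟨m, hm⟩ := (Germ.coe_eq.mp h).exists
      exact Nat.succ_ne_zero _ hm
  succ_inj := by
    intro m n h
    exact add_right_cancel (G := NN) (b := 1) h
  add_zero := fun m => _root_.add_zero (M := NN) m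
  add_succ := fun m n => (_root_.add_assoc (G := NN) m n 1).symm
  mul_zero := fun m => MulZeroClass.mul_zero (M₀ := NN) m
  mul_succ := fun m n =>
    (show ∀ a b : NN, a * (b + 1) = a * b + a from fun a b => by rw [mul_add, mul_one]) m n
  not_lt_zero := by
    intro m
    induction m using Germ.inductionOn with
    | _ f =>
      intro h
      change ((f : ℕ → ℕ) : NN) < ((fun _ => 0 : ℕ → ℕ) : NN) at h
      rw [Germ.coe_lt] at h
      obtain ⟨m, hm⟩ := h.exists
      exact Nat.not_lt_zero _ hm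
  lt_succ := by
    intro m n
    induction m using Germ.inductionOn with
    | _ f =>
      induction n using Germ.inductionOn with
      | _ g =>
        change ((f : ℕ → ℕ) : NN) < ((fun m => g m + 1 : ℕ → ℕ) : NN) ↔
          ((f : NN) < (g : NN) ∨ (f : NN) = (g : NN))
        rw [Germ.coe_lt, Germ.coe_lt, Germ.coe_eq, EventuallyEq, ← Ultrafilter.eventually_or]
        exact eventually_congr (Eventually.of_forall fun m => Nat.lt_succ_iff_lt_or_eq)
  induction := fun φ _ v V hV h0 h1 n => S_induction φ v V hV h0 h1 n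
  comprehension := fun φ _ _ _ v V hV _ => S_comprehension φ v V hV

/-! ### The axiom of choice -/

/-- Shift the variables of a term by three. -/
def Tm.sh : Tm → Tm
  | .var i => .var (i + 3)
  | .zero => .zero
  | .one => .one
  | .add s t => .add s.sh t.sh
  | .mul s t => .mul s.sh t.sh

/-- Replace the set variable `0` by its section at the number variable `2`; the other number variables
are shifted by three. -/
def Fm.sh : Fm → Fm
  | .eq s t => .eq s.sh t.sh
  | .lt s t => .lt s.sh t.sh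
  | .mem t 0 => .mem (prT (.var 2) t.sh) 0
  | .mem t (i + 1) => .mem t.sh (i + 1)
  | .neg φ => .neg φ.sh
  | .and φ ψ => .and φ.sh ψ.sh
  | .all i φ => .all (i + 3) φ.sh

theorem eval_sh (𝔐 : NumStructure) (t : Tm) (u : ℕ → 𝔐.Num) :
    𝔐.eval t.sh u = 𝔐.eval t fun i => u (i + 3) := by
  induction t with
  | var i => rfl
  | zero => rfl
  | one => rfl
  | add s t hs ht => rw [Tm.sh, eval_add, eval_add, hs, ht]
  | mul s t hs ht => rw [Tm.sh, eval_mul, eval_mul, hs, ht]

theorem holds_sh (𝔐 : NumStructure) (φ : Fm) (u : ℕ → 𝔐.Num) (W : ℕ → Set 𝔐.Num) :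
    𝔐.Holds φ.sh u W ↔ 𝔐.Holds φ (fun i => u (i + 3)) (update W 0 (𝔐.col (W 0) (u 2))) := by
  induction φ generalizing u with
  | eq s t => rw [Fm.sh, holds_eq, holds_eq, eval_sh, eval_sh]
  | lt s t => rw [Fm.sh, holds_lt, holds_lt, eval_sh, eval_sh]
  | mem t i =>
    cases i with
    | zero =>
      rw [Fm.sh, holds_mem, holds_mem, eval_prT, eval_var, eval_sh, update_self]
      rfl
    | succ i =>
      rw [Fm.sh, holds_mem, holds_mem, eval_sh, update_of_ne (Nat.succ_ne_zero i)]
  | neg φ ih => rw [Fm.sh, holds_neg, holds_neg, ih]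
  | and φ ψ ih ih' => rw [Fm.sh, holds_and, holds_and, ih, ih']
  | all i φ ih =>
    rw [Fm.sh, holds_all, holds_all]
    refine forall_congr' fun a => ?_
    rw [ih]
    have h1 : (fun j => update u (i + 3) a (j + 3)) = update (fun j => u (j + 3)) i a := by
      funext j
      rcases eq_or_ne j i with rfl | hji
      · rw [update_self, update_self]
      · rw [update_of_ne hji, update_of_ne (by omega)]
    rw [h1, update_of_ne (by omega : (2 : ℕ) ≠ i + 3)]

/-- The formula for `{⟨n, e⟩ : A(n, X^[e])}`. -/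
def fE (A : Fm) : Fm := .ex 2 (.ex 3 (.and (.eq (.var 0) (prT (.var 3) (.var 2))) A.sh))

theorem holds_fE (A : Fm) (v : ℕ → ℕ) (V : ℕ → Set ℕ) (X : Set ℕ) (y : ℕ) :
    nat.Holds (fE A) (update (fun i => v (i - 3)) 0 y) (update V 0 X) ↔
      ∃ e n, y = pr n e ∧ nat.Holds A (update v 0 n) (update V 0 (nat.col X e)) := by
  rw [fE, holds_ex]
  refine exists_congr fun e => ?_
  rw [holds_ex]
  refine exists_congr fun n => ?_
  rw [holds_and, holds_sh, holds_eq]
  have h1 : (fun i => update (update (update (fun i => v (i - 3)) 0 y) 2 e) 3 n (i + 3)) =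
      update v 0 n := by
    funext i
    cases i with
    | zero => simp
    | succ i =>
      rw [update_of_ne (by omega), update_of_ne (by omega), update_of_ne (by omega),
        update_of_ne (by omega)]
      rfl
  rw [h1]
  have h2 : update (update (update (fun i => v (i - 3)) 0 y) 2 e) 3 n 2 = e := by simp
  rw [h2, update_idem, update_self]
  simp

/-- The formula for `{⟨n, x⟩ : x ∈ X^[e], e the least with ⟨n, e⟩ ∈ E}`. -/
def fY : Fm :=
  .ex 1 (.ex 2 (.ex 3 (.and (.eq (.var 0) (prT (.var 1) (.var 2)))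
    (.and (.mem (prT (.var 1) (.var 3)) 0)
      (.and (.all 4 (.imp (.lt (.var 4) (.var 3)) (.neg (.mem (prT (.var 1) (.var 4)) 0))))
        (.mem (prT (.var 3) (.var 2)) 1))))))

theorem holds_fY (E X : Set ℕ) (y : ℕ) :
    nat.Holds fY (update (fun _ => 0) 0 y) (update (fun _ => X) 0 E) ↔
      ∃ n x e, y = pr n x ∧ pr n e ∈ E ∧ (∀ e', e' < e → pr n e' ∉ E) ∧ pr e x ∈ X := by
  simp [fY]

theorem choice_nat (A : Fm) (k K : ℕ) : ∃ k', ∀ (v : ℕ → ℕ) (V : ℕ → Set ℕ), (∀ i, V i ∈ C K) →
    (∀ n, ∃ X ∈ C k, nat.Holds A (update v 0 n) (update V 0 X)) →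
    ∃ Y ∈ C k', ∀ n, nat.Holds A (update v 0 n) (update V 0 (nat.col Y n)) := by
  obtain ⟨k1, hk1, h1⟩ := comprehension (fE A) (max K (k + 1))
  obtain ⟨k2, hk2, h2⟩ := comprehension fY (max k1 (k + 1))
  refine ⟨k2, fun v V hV h => ?_⟩
  classical
  have hH := H_mem k
  have hE := h1 (fun i => v (i - 3)) (update V 0 (H k)) (by
    intro i
    rcases eq_or_ne i 0 with rfl | h0
    · rw [update_self]
      exact C_mono (le_max_right _ _) hH
    · rw [update_of_ne h0]
      exact C_mono (le_max_left _ _) (hV i))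
  simp only [holds_fE] at hE
  set E : Set ℕ := {x | ∃ e n, x = pr n e ∧
    nat.Holds A (update v 0 n) (update V 0 (nat.col (H k) e))} with hEdef
  have hmemE : ∀ n e, pr n e ∈ E ↔ nat.Holds A (update v 0 n) (update V 0 (nat.col (H k) e)) := by
    intro n e
    constructor
    · rintro ⟨e', n', h3, h4⟩
      obtain ⟨rfl, rfl⟩ := pr_inj h3
      exact h4
    · exact fun h3 => ⟨e, n, rfl, h3⟩
  have hY := h2 (fun _ => 0) (update (fun _ => H k) 0 E) (by
    intro i
    rcases eq_or_ne i 0 with rfl | h0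
    · rw [update_self]
      exact C_mono (le_max_left _ _) hE
    · rw [update_of_ne h0]
      exact C_mono (le_max_right _ _) hH)
  simp only [holds_fY] at hY
  refine ⟨_, hY, fun n => ?_⟩
  have h3 : ∃ e, nat.Holds A (update v 0 n) (update V 0 (nat.col (H k) e)) := by
    obtain ⟨X, ⟨e, rfl⟩, hX⟩ := h n
    exact ⟨e, hX⟩
  have h4 : nat.col {x | ∃ n x_1 e, x = pr n x_1 ∧ pr n e ∈ E ∧ (∀ e' < e, pr n e' ∉ E) ∧
      pr e x_1 ∈ H k} n = nat.col (H k) (Nat.find h3) := by
    ext x
    constructor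
    · rintro ⟨n', x', e, h5, h6, h7, h8⟩
      obtain ⟨rfl, rfl⟩ := pr_inj h5
      have h9 : e = Nat.find h3 := by
        symm
        rw [Nat.find_eq_iff]
        refine ⟨(hmemE n e).mp h6, fun e' he' h10 => h7 e' he' ((hmemE n e').mpr h10)⟩
      rw [← h9]
      exact h8
    · intro h5
      exact ⟨n, x, Nat.find h3, rfl, (hmemE n _).mpr (Nat.find_spec h3),
        fun e' he' h6 => Nat.find_min h3 he' ((hmemE n e').mp h6), h5⟩
  rw [h4]
  exact Nat.find_spec h3

theorem col_Int (Y : ℕ → Set ℕ) (f : ℕ → ℕ) :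
    ger.col (Int Y) (f : NN) = Int fun m => nat.col (Y m) (f m) := by
  ext x
  induction x using Germ.inductionOn with
  | _ g =>
    rw [mem_Int]
    change ger.pair (f : NN) (g : NN) ∈ Int Y ↔ _
    have : ger.pair (f : NN) (g : NN) = ((fun m => pr (f m) (g m) : ℕ → ℕ) : NN) := rfl
    rw [this, mem_Int]
    rfl

theorem sigmaAC : MM.SigmaAC := by
  intro A v V hV h
  change ∀ i, V i ∈ S at hV
  change ∀ n : NN, ∃ X ∈ S, ger.Holds A (update v 0 n) (update V 0 X) at h
  change ∃ Y ∈ S, ∀ n : NN, ger.Holds A (update v 0 n) (update V 0 (ger.col Y n))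
  obtain ⟨K, hK, B, hBC, hB⟩ := rep_sets A.bd V hV
  obtain ⟨w, hw⟩ := exists_rep v
  -- some `k` works
  have hk : ∃ k, ∀ᶠ m in (U : Filter ℕ), ∀ n, ∃ X ∈ C k,
      nat.Holds A (update (fun i => w i m) 0 n) (update (fun i => B i m) 0 X) := by
    by_contra hcon
    push Not at hcon
    -- the bad numbers at stage `m` for `k`
    let Bad : ℕ → ℕ → Set ℕ := fun k m => {n | ∀ X ∈ C k,
      ¬ nat.Holds A (update (fun i => w i m) 0 n) (update (fun i => B i m) 0 X)}
    have hbad : ∀ k, ∀ᶠ m in (U : Filter ℕ), (Bad k m).Nonempty := by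
      intro k
      filter_upwards [hcon k] with m hm
      obtain ⟨n, hn⟩ := hm
      exact ⟨n, hn⟩
    have hanti : ∀ {k l} m, k ≤ l → Bad l m ⊆ Bad k m := fun m hkl n hn X hX =>
      hn X (C_mono hkl hX)
    classical
    -- the largest `k ≤ m` with `Bad k m` nonempty
    have h2 : ∀ m, ∃ n, ∀ k ≤ m, (Bad k m).Nonempty → n ∈ Bad k m := by
      intro m
      by_cases h0 : ∃ k ≤ m, (Bad k m).Nonempty
      · obtain ⟨k0, hk0m, hk0⟩ := h0
        set T := (Finset.range (m + 1)).filter fun k => (Bad k m).Nonempty with hT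
        have hTne : T.Nonempty := ⟨k0, by
          rw [hT, Finset.mem_filter, Finset.mem_range]
          exact ⟨by omega, hk0⟩⟩
        have hmax := Finset.mem_filter.mp (Finset.max'_mem T hTne)
        obtain ⟨n, hn⟩ := hmax.2
        refine ⟨n, fun k hk hne => ?_⟩
        refine hanti m (Finset.le_max' T k ?_) hn
        rw [hT, Finset.mem_filter, Finset.mem_range]
        exact ⟨by omega, hne⟩
      · push Not at h0
        exact ⟨0, fun k hk hne => absurd hne (by rw [h0 k hk]; exact Set.not_nonempty_empty)⟩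
    choose f hf using h2
    obtain ⟨X, ⟨k, D, hD, rfl⟩, hX⟩ := h (f : NN)
    rw [holds_rep' A v w hw V B hB f D] at hX
    have h3 : ∀ᶠ m in (U : Filter ℕ), k ≤ m :=
      (Nat.hyperfilter_le_atTop) (eventually_ge_atTop k)
    obtain ⟨m, ⟨h4, h5⟩, h6⟩ := ((h3.and (hbad k)).and hX).exists
    exact hf m k h4 h5 (D m) (hD m) h6
  obtain ⟨k, hk⟩ := hk
  obtain ⟨k', hk'⟩ := choice_nat A k K
  have h1 : ∀ m, ∃ Y ∈ C (k' + 1), (∀ n, ∃ X ∈ C k,
      nat.Holds A (update (fun i => w i m) 0 n) (update (fun i => B i m) 0 X)) →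
      ∀ n, nat.Holds A (update (fun i => w i m) 0 n)
        (update (fun i => B i m) 0 (nat.col Y n)) := by
    intro m
    by_cases hm : ∀ n, ∃ X ∈ C k,
      nat.Holds A (update (fun i => w i m) 0 n) (update (fun i => B i m) 0 X)
    · obtain ⟨Y, hY, hY2⟩ := hk' (fun i => w i m) (fun i => B i m) (fun i => hBC i m) hm
      exact ⟨Y, C_mono_succ hY, fun _ => hY2⟩
    · exact ⟨∅, C_mono (by omega) C_empty, fun h => absurd h hm⟩
  choose Y hY hY2 using h1
  refine ⟨Int Y, ⟨k' + 1, Y, hY, rfl⟩, fun n => ?_⟩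
  induction n using Germ.inductionOn with
  | _ f =>
    rw [col_Int, holds_rep' A v w hw V B hB f]
    filter_upwards [hk] with m hm
    exact hY2 m hm (f m)

theorem finiteSigmaAC : MM.FiniteSigmaAC := by
  intro A v V hV h
  refine sigmaAC A v V hV fun n => ?_
  obtain ⟨Z, hZ, j, hj, h1⟩ := h n
  have h2 : MM.col Z MM.zero ∈ MM.sets := by
    obtain ⟨k, D, hD, rfl⟩ := hZ
    exact ⟨k + 1, fun m => nat.col (D m) 0, fun m => C_sec (hD m) 0, col_Int D (fun _ => 0)⟩
  exact ⟨_, h2, (h1 _ h2).mpr ⟨MM.zero, hj, rfl⟩⟩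

end Pool.Agent.E8helper17.SOA
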