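import Pool.Agent.E8helper17.WhitData

/-!
# Checks of the tables for the representation of the dual of `Π₄`
-/

set_option autoImplicit false

namespace Pool.Agent.E8helper17.Whit

/-- Two rows agree in all columns of the list. -/
def agree (ks : List ℕ) (x y : ℕ) : Bool := ks.all fun k => col k x == col k y

/-- The parent of `x`. -/
def par (P x : ℕ) : ℕ := (P >>> (10 * x)) % 1024

/-- All numbers below `n` satisfy `p`. -/
def allBelow (p : ℕ → Bool) : ℕ → Bool
  | 0 => true
  | n + 1 => p n && allBelow p n

theorem of_allBelow {p : ℕ → Bool} : ∀ {n : ℕ}, allBelow p n = true → ∀ x < n, p x = true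
  | 0, _, x, hx => absurd hx (Nat.not_lt_zero x)
  | n + 1, h, x, hx => by
    rw [allBelow, Bool.and_eq_true] at h
    rcases Nat.lt_succ_iff_lt_or_eq.mp hx with h1 | h1
    · exact of_allBelow h.2 x h1
    · exact h1 ▸ h.1

/-- The check for one functional dependency. -/
def depOK (d : ℕ × ℕ × ℕ × ℕ) : Bool :=
  allBelow (fun x => col d.2.2.1 x == (d.2.2.2 >>> (4 * (16 * col d.1 x + col d.2.1 x))) % 16) 660

/-- The check for one join. -/
def joinOK (D : JData) : Bool :=
  (cs D.z D.i == cs D.z D.j) &&
  allBelow (fun x =>
    (Nat.blt (par D.P x) 660) &&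
    (agree (colsOf D.c) x (par D.P x) || agree (colsOf D.d) x (par D.P x)) &&
    (par D.P (par D.P (par D.P (par D.P (par D.P (par D.P x))))) ==
      (D.R >>> (10 * col (ci D.i D.j) x)) % 1024)) 660

theorem dep_all : depList.all depOK = true := by decide +kernel

theorem join_all : jList.all joinOK = true := by decide +kernel

theorem col_six : allBelow (fun x => col 6 x == 0) 660 = true := by decide +kernel

end Pool.Agent.E8helper17.Whit
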