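import Pool.Agent.E8helper17.WhitCheck

/-!
# The representation of the dual of `Π₄` by partitions of a set with 660 elements
-/

set_option autoImplicit false

namespace Pool.Agent.E8helper17.Whit

theorem col_six' (x : Fin 660) : col 6 x = 0 := by
  have := of_allBelow col_six x x.2
  simpa using this

theorem ci_self : ∀ i, ci i i = 6 := by decide

theorem ci_comm : ∀ i j, ci i j = ci j i := by decide

theorem dep_mem : ∀ i j k : Fin 4, i ≠ j → j ≠ k → i ≠ k →
    (depList.any fun d => d.1 == ci i j && d.2.1 == ci j k && d.2.2.1 == ci i k) = true := by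
  decide +kernel

theorem dep (i j k : Fin 4) (x y : Fin 660) (h1 : col (ci i j) x = col (ci i j) y)
    (h2 : col (ci j k) x = col (ci j k) y) : col (ci i k) x = col (ci i k) y := by
  by_cases hij : i = j
  · subst hij; exact h2
  by_cases hjk : j = k
  · subst hjk; exact h1
  by_cases hik : i = k
  · subst hik; rw [ci_self, col_six', col_six']
  have h3 := dep_mem i j k hij hjk hik
  rw [List.any_eq_true] at h3
  obtain ⟨⟨a, b, c, T⟩, hd, h4⟩ := h3
  simp only [Bool.and_eq_true, beq_iff_eq] at h4
  obtain ⟨⟨ha, hb⟩, hc⟩ := h4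
  have h5 := List.all_eq_true.mp dep_all _ hd
  have h6 : ∀ x : Fin 660, col c x = (T >>> (4 * (16 * col a x + col b x))) % 16 := by
    intro x
    have := of_allBelow h5 x x.2
    simpa using this
  rw [← hc, h6 x, h6 y, ha, hb, h1, h2]

/-- The pairs whose columns agree in the rows `x` and `y`. -/
def t (x y : Fin 660) : Setoid (Fin 4) where
  r i j := col (ci i j) x = col (ci i j) y
  iseqv := ⟨fun i => by rw [ci_self, col_six', col_six'],
    fun {i j} h => by rw [ci_comm j i]; exact h, fun {i j k} h1 h2 => dep i j k x y h1 h2⟩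

theorem t_apply (x y : Fin 660) (i j : Fin 4) :
    t x y i j ↔ col (ci i j) x = col (ci i j) y := Iff.rfl

/-- The equivalence relation on the rows which belongs to `r`. -/
def F (r : Setoid (Fin 4)) : Setoid (Fin 660) where
  r x y := r ≤ t x y
  iseqv := ⟨fun _ _ _ _ => rfl, fun h _ _ hij => (h hij).symm,
    fun h1 h2 _ _ hij => (h1 hij).trans (h2 hij)⟩

theorem F_apply (r : Setoid (Fin 4)) (x y : Fin 660) : F r x y ↔ r ≤ t x y := Iff.rfl

theorem F_anti {r s : Setoid (Fin 4)} (h : r ≤ s) : F s ≤ F r :=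
  fun _ _ hxy => h.trans hxy

theorem F_sup (r s : Setoid (Fin 4)) : F (r ⊔ s) = F r ⊓ F s := by
  ext x y
  rw [Setoid.inf_iff_and, F_apply, F_apply, F_apply, sup_le_iff]

/-- The fifteen partitions. -/
def S (k : Fin 15) : Setoid (Fin 4) := Setoid.ker (cs k)

theorem S_apply (k : Fin 15) (i j : Fin 4) : S k i j ↔ cs k i = cs k j := Iff.rfl

/-- Transitivity for three booleans. -/
def tr3 (a b c : Bool) : Bool := (!(a && b) || c) && (!(a && c) || b) && (!(b && c) || a)

theorem bool_codes : ∀ b01 b02 b03 b12 b13 b23 : Bool,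
    (tr3 b01 b12 b02 && tr3 b01 b13 b03 && tr3 b02 b23 b03 && tr3 b12 b23 b13) = true →
    ((List.finRange 15).any fun k => (decide (cs k 0 = cs k 1) == b01) &&
      (decide (cs k 0 = cs k 2) == b02) && (decide (cs k 0 = cs k 3) == b03) &&
      (decide (cs k 1 = cs k 2) == b12) && (decide (cs k 1 = cs k 3) == b13) &&
      (decide (cs k 2 = cs k 3) == b23)) = true := by
  decide +kernel

theorem tr3_of {a b c : Bool} (h1 : a = true → b = true → c = true)
    (h2 : a = true → c = true → b = true) (h3 : b = true → c = true → a = true) :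
    tr3 a b c = true := by
  cases a <;> cases b <;> cases c <;> simp_all [tr3]

theorem exists_code (r : Setoid (Fin 4)) : ∃ k, r = S k := by
  classical
  have sy : ∀ {i j}, r i j → r j i := fun h => r.symm' h
  have tr : ∀ {i j k}, r i j → r j k → r i k := fun h h' => r.trans' h h'
  have htr : ∀ i j k, tr3 (decide (r i j)) (decide (r j k)) (decide (r i k)) = true := by
    intro i j k
    apply tr3_of
    · simpa using fun h h' => tr h h'
    · simpa using fun h h' => tr (sy h) h'
    · simpa using fun h h' => tr h' (sy h)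
  have h0 := bool_codes (decide (r 0 1)) (decide (r 0 2))
    (decide (r 0 3)) (decide (r 1 2)) (decide (r 1 3)) (decide (r 2 3)) (by
      rw [htr 0 1 2, htr 0 1 3, htr 0 2 3, htr 1 2 3]; rfl)
  rw [List.any_eq_true] at h0
  obtain ⟨k, -, h0⟩ := h0
  simp only [Bool.and_eq_true, beq_iff_eq, decide_eq_decide] at h0
  obtain ⟨⟨⟨⟨⟨h01, h02⟩, h03⟩, h12⟩, h13⟩, h23⟩ := h0
  refine ⟨k, Setoid.ext fun i j => ?_⟩
  rw [S_apply]
  have hs : ∀ i j, r i j ↔ r j i := fun i j => ⟨sy, sy⟩
  fin_cases i <;> fin_cases j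
  · exact ⟨fun _ => rfl, fun _ => r.refl' _⟩
  · exact h01.symm
  · exact h02.symm
  · exact h03.symm
  · exact (hs _ _).trans (h01.symm.trans eq_comm)
  · exact ⟨fun _ => rfl, fun _ => r.refl' _⟩
  · exact h12.symm
  · exact h13.symm
  · exact (hs _ _).trans (h02.symm.trans eq_comm)
  · exact (hs _ _).trans (h12.symm.trans eq_comm)
  · exact ⟨fun _ => rfl, fun _ => r.refl' _⟩
  · exact h23.symm
  · exact (hs _ _).trans (h03.symm.trans eq_comm)
  · exact (hs _ _).trans (h13.symm.trans eq_comm)
  · exact (hs _ _).trans (h23.symm.trans eq_comm)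
  · exact ⟨fun _ => rfl, fun _ => r.refl' _⟩

theorem ci_mem : ∀ (c : Fin 15) (i j : Fin 4), cs c i = cs c j →
    i = j ∨ (colsOf c).contains (ci i j) = true := by
  decide +kernel

theorem F_of_agree {c : Fin 15} {x y : Fin 660} (h : agree (colsOf c) x y = true) :
    F (S c) x y := by
  rw [F_apply]
  intro i j hij
  rw [t_apply]
  rcases ci_mem c i j hij with h1 | h1
  · subst h1
    rw [ci_self, col_six', col_six']
  · rw [agree, List.all_eq_true] at h
    have := h _ (List.contains_iff_mem.mp h1)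
    simpa using this

theorem join_basic (D : JData) (hD : D ∈ jList) : F (S D.z) ≤ F (S D.c) ⊔ F (S D.d) := by
  have h0 := List.all_eq_true.mp join_all D hD
  rw [joinOK, Bool.and_eq_true] at h0
  obtain ⟨hz, h0⟩ := h0
  have hz' : cs D.z D.i = cs D.z D.j := by simpa using hz
  have h1 : ∀ x : ℕ, x < 660 → par D.P x < 660 ∧
      (agree (colsOf D.c) x (par D.P x) = true ∨ agree (colsOf D.d) x (par D.P x) = true) ∧
      par D.P (par D.P (par D.P (par D.P (par D.P (par D.P x))))) =
        (D.R >>> (10 * col (ci D.i D.j) x)) % 1024 := by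
    intro x hx
    have h2 := of_allBelow h0 x hx
    simp only [Bool.and_eq_true, Bool.or_eq_true, beq_iff_eq, Nat.blt_eq] at h2
    exact ⟨h2.1.1, h2.1.2, h2.2⟩
  set J := F (S D.c) ⊔ F (S D.d) with hJ
  have h2 : ∀ x y : Fin 660, (y : ℕ) = par D.P x → J x y := by
    intro x y hy
    rcases (h1 x x.2).2.1 with h3 | h3
    · rw [← hy] at h3
      exact (le_sup_left : F (S D.c) ≤ J) (F_of_agree h3)
    · rw [← hy] at h3
      exact (le_sup_right : F (S D.d) ≤ J) (F_of_agree h3)
  have h3 : ∀ x : Fin 660, ∃ y : Fin 660, (y : ℕ) = par D.P x ∧ J x y := fun x =>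
    ⟨⟨par D.P x, (h1 x x.2).1⟩, rfl, h2 _ _ rfl⟩
  have h4 : ∀ x : Fin 660, ∃ y : Fin 660,
      (y : ℕ) = (D.R >>> (10 * col (ci D.i D.j) x)) % 1024 ∧ J x y := by
    intro x
    obtain ⟨y1, e1, j1⟩ := h3 x
    obtain ⟨y2, e2, j2⟩ := h3 y1
    obtain ⟨y3, e3, j3⟩ := h3 y2
    obtain ⟨y4, e4, j4⟩ := h3 y3
    obtain ⟨y5, e5, j5⟩ := h3 y4
    obtain ⟨y6, e6, j6⟩ := h3 y5
    refine ⟨y6, ?_, J.trans' j1 (J.trans' j2 (J.trans' j3 (J.trans' j4 (J.trans' j5 j6))))⟩
    rw [← (h1 x x.2).2.2, ← e1, ← e2, ← e3, ← e4, ← e5, ← e6]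
  intro x y hxy
  have h5 : col (ci D.i D.j) x = col (ci D.i D.j) y := (F_apply _ _ _).mp hxy hz'
  obtain ⟨u, hu, ju⟩ := h4 x
  obtain ⟨v, hv, jv⟩ := h4 y
  have huv : u = v := Fin.ext (by rw [hu, hv, h5])
  subst huv
  exact J.trans' ju (J.symm' jv)

/-- Comparison of the fifteen partitions. -/
def leq (k l : Fin 15) : Bool := decide (∀ i j : Fin 4, cs k i = cs k j → cs l i = cs l j)

theorem le_of_leq {k l : Fin 15} (h : leq k l = true) : S k ≤ S l := by
  intro i j hij
  exact (of_decide_eq_true h) i j hij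

/-- One step of the closure. -/
def next (T : List (Fin 15)) : List (Fin 15) :=
  (List.finRange 15).filter fun x => (T.any fun k => leq k x) ||
    (jList.any fun D => D.z == x && (T.contains D.c && T.contains D.d))

theorem next_sound {J : Setoid (Fin 660)} {T : List (Fin 15)} (h : ∀ k ∈ T, F (S k) ≤ J) :
    ∀ k ∈ next T, F (S k) ≤ J := by
  intro k hk
  rw [next, List.mem_filter, Bool.or_eq_true] at hk
  rcases hk.2 with h1 | h1
  · rw [List.any_eq_true] at h1
    obtain ⟨l, hl, hlk⟩ := h1
    exact (F_anti (le_of_leq hlk)).trans (h l hl)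
  · rw [List.any_eq_true] at h1
    obtain ⟨D, hD, h2⟩ := h1
    simp only [Bool.and_eq_true, beq_iff_eq, List.contains_iff_mem] at h2
    obtain ⟨h3, h4, h5⟩ := h2
    rw [← h3]
    exact (join_basic D hD).trans (sup_le (h _ h4) (h _ h5))

/-- `z` is the meet of `k` and `l`. -/
def isMeet (z k l : Fin 15) : Bool :=
  decide (∀ i j : Fin 4, cs z i = cs z j ↔ cs k i = cs k j ∧ cs l i = cs l j)

theorem meet_all : ((List.finRange 15).all fun k => (List.finRange 15).all fun l =>
    (List.finRange 15).any fun z => isMeet z k l &&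
      (next (next (next (next [k, l])))).contains z) = true := by
  decide +kernel

theorem F_inf (r s : Setoid (Fin 4)) : F (r ⊓ s) = F r ⊔ F s := by
  apply le_antisymm
  · obtain ⟨k, rfl⟩ := exists_code r
    obtain ⟨l, rfl⟩ := exists_code s
    have h1 := List.all_eq_true.mp (List.all_eq_true.mp meet_all k (List.mem_finRange k)) l
      (List.mem_finRange l)
    rw [List.any_eq_true] at h1
    obtain ⟨z, -, h2⟩ := h1
    rw [Bool.and_eq_true] at h2
    have h3 : S k ⊓ S l = S z := by
      ext i j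
      rw [Setoid.inf_iff_and]
      exact ((of_decide_eq_true h2.1) i j).symm
    rw [h3]
    have h4 : ∀ m ∈ [k, l], F (S m) ≤ F (S k) ⊔ F (S l) := by
      intro m hm
      rw [List.mem_cons, List.mem_cons] at hm
      rcases hm with rfl | rfl | h
      · exact le_sup_left
      · exact le_sup_right
      · exact absurd h (List.not_mem_nil)
    exact next_sound (next_sound (next_sound (next_sound h4))) z (List.contains_iff_mem.mp h2.2)
  · exact sup_le (F_anti inf_le_left) (F_anti inf_le_right)

/-- A row `y` with `t 0 y = S k`. -/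
def wit (k : Fin 15) : Fin 660 :=
  (![0, 4, 3, 26, 16, 2, 23, 12, 42, 1, 8, 11, 7, 6, 27] : Fin 15 → Fin 660) k

theorem wit_spec : ∀ (k : Fin 15) (i j : Fin 4),
    col (ci i j) (0 : ℕ) = col (ci i j) ((wit k : Fin 660) : ℕ) ↔ cs k i = cs k j := by
  decide +kernel

theorem F_injective : Function.Injective F := by
  have key : ∀ r s : Setoid (Fin 4), F r = F s → s ≤ r := by
    intro r s h
    obtain ⟨k, rfl⟩ := exists_code r
    have h1 : t 0 (wit k) = S k := Setoid.ext fun i j => wit_spec k i j
    have h2 : F (S k) 0 (wit k) := by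
      rw [F_apply, h1]
    rw [h, F_apply, h1] at h2
    exact h2
  intro r s h
  exact le_antisymm (key s r h.symm) (key r s h)

/-- The embedding of the dual of `Π₄` into the partition lattice of a set with 660 elements. -/
def emb : LatticeHom (Setoid (Fin 4))ᵒᵈ (Setoid (Fin 660)) where
  toFun r := F (OrderDual.ofDual r)
  map_sup' r s := F_inf (OrderDual.ofDual r) (OrderDual.ofDual s)
  map_inf' r s := F_sup (OrderDual.ofDual r) (OrderDual.ofDual s)

theorem emb_injective : Function.Injective emb := fun _ _ h =>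
  OrderDual.ofDual.injective (F_injective h)

end Pool.Agent.E8helper17.Whit
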